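import Pool.Agent.Helper92.RK.Defs

/-! Swarm RK, part FIX: a restriction which kills the short members of a read-k family. -/

set_option autoImplicit false

namespace Pool.Agent.Helper71.RK.FIX

open Finset Pool.Agent.Helper92.RK

variable {n : ℕ}

lemma card_vr {T : Tm n} (hT : Con T) : (vr T).card = T.card := by
  unfold vr
  exact card_image_of_injOn fun l hl l' hl' h => hT l hl l' hl' h

lemma dc {ι : Type} {k : ℕ} {s : Finset ι} {R : ι → Tm n} (hR : Rd k s R) {P : Finset ι}
    (hP : P ⊆ s) {Q : Finset (Fin n)} (hQ : ∀ b ∈ P, vr (R b) ⊆ Q) :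
    ∑ b ∈ P, (vr (R b)).card ≤ k * Q.card := by
  calc ∑ b ∈ P, (vr (R b)).card = ∑ b ∈ P, ∑ i ∈ Q, (if i ∈ vr (R b) then 1 else 0) := by
        refine sum_congr rfl fun b hb => ?_
        rw [← card_filter]
        congr 1
        ext i
        rw [mem_filter]
        exact ⟨fun h => ⟨hQ b hb h, h⟩, fun h => h.2⟩
    _ = ∑ i ∈ Q, (P.filter fun b => i ∈ vr (R b)).card := by
        rw [sum_comm]
        exact sum_congr rfl fun i _ => (card_filter _ _).symm
    _ ≤ ∑ _i ∈ Q, k := sum_le_sum fun i _ => (card_le_card (filter_subset_filter _ hP)).trans (hR i)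
    _ = k * Q.card := by rw [sum_const, smul_eq_mul, mul_comm]

/-- The set of the variables to be fixed. -/
lemma exists_Q (k h : ℕ) (M : ℝ) (hM : 0 ≤ M) : ∃ q : ℕ, ∀ (n : ℕ) (ι : Type) (s : Finset ι)
    (R : ι → Tm n), (∀ b ∈ s, Con (R b)) → Rd k s R → wt s R ≤ M →
    ∃ Q : Finset (Fin n), Q.card ≤ q ∧ (∀ i ∈ Q, ∃ b ∈ s, i ∈ vr (R b)) ∧
      ∀ b ∈ s, (vr (R b) \ Q).card < h → vr (R b) ⊆ Q := by
  classical
  obtain ⟨g, hg⟩ : ∃ g : ℕ, g = k * h + 1 := ⟨_, rfl⟩
  obtain ⟨q0, hq0⟩ : ∃ q0 : ℕ, (g : ℝ) * M * 2 ^ g ≤ q0 := ⟨_, Nat.le_ceil _⟩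
  refine ⟨q0 + k * q0 * h, fun n ι s R hC hR hw => ?_⟩
  set S0 : Finset ι := s.filter fun b => (R b).card < g with hS0
  set Q0 : Finset (Fin n) := S0.biUnion fun b => vr (R b) with hQ0
  have h1 : (S0.card : ℝ) ≤ M * 2 ^ g := by
    have h2 : (S0.card : ℝ) * (1 / 2) ^ g ≤ M := by
      refine le_trans ?_ hw
      unfold wt
      calc (S0.card : ℝ) * (1 / 2) ^ g = ∑ _b ∈ S0, (1 / 2 : ℝ) ^ g := by
            rw [sum_const, nsmul_eq_mul]
        _ ≤ ∑ b ∈ S0, (1 / 2 : ℝ) ^ (R b).card := by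
            refine sum_le_sum fun b hb => ?_
            exact pow_le_pow_of_le_one (by norm_num) (by norm_num) (mem_filter.1 hb).2.le
        _ ≤ _ := sum_le_sum_of_subset_of_nonneg (filter_subset _ _) fun _ _ _ => by positivity
    have h3 : (S0.card : ℝ) = (S0.card : ℝ) * (1 / 2) ^ g * 2 ^ g := by
      rw [mul_assoc, ← mul_pow]
      norm_num
    rw [h3]
    gcongr
  have h2 : Q0.card ≤ S0.card * g := by
    refine card_biUnion_le.trans ?_
    calc ∑ b ∈ S0, (vr (R b)).card ≤ ∑ _b ∈ S0, g := by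
          refine sum_le_sum fun b hb => ?_
          exact card_image_le.trans (mem_filter.1 hb).2.le
      _ = S0.card * g := by rw [sum_const, smul_eq_mul]
  have h3 : Q0.card ≤ q0 := by
    have h4 : (Q0.card : ℝ) ≤ q0 := by
      calc (Q0.card : ℝ) ≤ (S0.card : ℝ) * g := by exact_mod_cast h2
        _ ≤ (M * 2 ^ g) * g := by gcongr
        _ = g * M * 2 ^ g := by ring
        _ ≤ q0 := hq0
    exact_mod_cast h4
  set cand : Finset (Finset ι) := s.powerset.filter fun P => (∀ b ∈ P, g ≤ (R b).card) ∧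
    ∃ Q : Finset (Fin n), Q0 ⊆ Q ∧ (∀ i ∈ Q, ∃ b ∈ s, i ∈ vr (R b)) ∧ (∀ b ∈ P, vr (R b) ⊆ Q) ∧
      Q.card ≤ q0 + P.card * h with hcand
  have hne : (∅ : Finset ι) ∈ cand := by
    rw [hcand, mem_filter]
    refine ⟨mem_powerset.2 (empty_subset _), fun b hb => absurd hb (notMem_empty _), Q0,
      Subset.refl _, ?_, fun b hb => absurd hb (notMem_empty _), ?_⟩
    · intro i hi
      rw [hQ0, mem_biUnion] at hi
      obtain ⟨b, hb, hi⟩ := hi
      exact ⟨b, (mem_filter.1 hb).1, hi⟩
    · rw [card_empty]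
      omega
  obtain ⟨P, hP, hmax⟩ := exists_max_image cand card ⟨_, hne⟩
  rw [hcand, mem_filter, mem_powerset] at hP
  obtain ⟨hPs, hPg, Q, hQ0Q, hQv, hPQ, hQc⟩ := hP
  have h4 : P.card ≤ k * q0 := by
    have h5 := dc hR hPs hPQ
    have h6 : P.card * g ≤ ∑ b ∈ P, (vr (R b)).card := by
      rw [← smul_eq_mul, ← sum_const]
      refine sum_le_sum fun b hb => ?_
      rw [card_vr (hC b (hPs hb))]
      exact hPg b hb
    have h7 : P.card * g ≤ k * (q0 + P.card * h) :=
      (h6.trans h5).trans (Nat.mul_le_mul_left k hQc)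
    rw [hg] at h7
    nlinarith
  refine ⟨Q, hQc.trans ?_, hQv, fun b hb hbh => ?_⟩
  · have := Nat.mul_le_mul_right h h4
    omega
  · by_cases hbg : (R b).card < g
    · refine Subset.trans ?_ hQ0Q
      rw [hQ0]
      exact subset_biUnion_of_mem (fun b => vr (R b)) (mem_filter.2 ⟨hb, hbg⟩)
    · by_cases hbP : b ∈ P
      · exact hPQ b hbP
      · exfalso
        have h5 : insert b P ∈ cand := by
          rw [hcand, mem_filter, mem_powerset]
          refine ⟨insert_subset hb hPs, ?_, Q ∪ vr (R b), hQ0Q.trans subset_union_left, ?_, ?_, ?_⟩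
          · intro c hc
            rcases mem_insert.1 hc with rfl | hc
            · omega
            · exact hPg c hc
          · intro i hi
            rcases mem_union.1 hi with hi | hi
            · exact hQv i hi
            · exact ⟨b, hb, hi⟩
          · intro c hc
            rcases mem_insert.1 hc with rfl | hc
            · exact subset_union_right
            · exact (hPQ c hc).trans subset_union_left
          · have h6 : Q ∪ vr (R b) = Q ∪ (vr (R b) \ Q) := by
              rw [union_sdiff_self_eq_union]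
            rw [h6, card_insert_of_notMem hbP]
            have h7 := card_union_le Q (vr (R b) \ Q)
            have h8 : (P.card + 1) * h = P.card * h + h := by ring
            omega
        have h6 := hmax _ h5
        rw [card_insert_of_notMem hbP] at h6
        omega

/-- The restriction of the variables of `Q` to the values of `x`. -/
def rs (Q : Finset (Fin n)) (x : Fin n → Bool) : Tm n := Q.image fun i => (i, x i)

lemma mem_rs {Q : Finset (Fin n)} {x : Fin n → Bool} {l : Lit n} :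
    l ∈ rs Q x ↔ l.1 ∈ Q ∧ x l.1 = l.2 := by
  unfold rs
  rw [mem_image]
  constructor
  · rintro ⟨i, hi, rfl⟩
    exact ⟨hi, rfl⟩
  · rintro ⟨h1, h2⟩
    exact ⟨l.1, h1, Prod.ext rfl h2⟩

lemma con_rs (Q : Finset (Fin n)) (x : Fin n → Bool) : Con (rs Q x) := by
  intro l hl l' hl' h
  rw [mem_rs] at hl hl'
  refine Prod.ext h ?_
  rw [← hl.2, ← hl'.2, h]

lemma con_union_rs {T : Tm n} (hT : Con T) (Q : Finset (Fin n)) (x : Fin n → Bool) :
    Con (T ∪ rs Q x) ↔ Sat (T.filter fun l => l.1 ∈ Q) x := by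
  constructor
  · intro h l hl
    rw [mem_filter] at hl
    have h1 : (l.1, x l.1) ∈ rs Q x := mem_rs.2 ⟨hl.2, rfl⟩
    have h2 := h l (mem_union_left _ hl.1) _ (mem_union_right _ h1) rfl
    exact (congrArg Prod.snd h2).symm
  · intro h l hl l' hl' hll
    rcases mem_union.1 hl with hl | hl <;> rcases mem_union.1 hl' with hl' | hl'
    · exact hT l hl l' hl' hll
    · have h1 := mem_rs.1 hl'
      have h2 := h l (mem_filter.2 ⟨hl, by rw [hll]; exact h1.1⟩)
      refine Prod.ext hll ?_
      rw [← h2, ← h1.2, hll]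
    · have h1 := mem_rs.1 hl
      have h2 := h l' (mem_filter.2 ⟨hl', by rw [← hll]; exact h1.1⟩)
      refine Prod.ext hll ?_
      rw [← h2, ← h1.2, hll]
    · exact con_rs Q x l hl l' hl' hll

lemma sdiff_rs {T : Tm n} {Q : Finset (Fin n)} {x : Fin n → Bool}
    (h : Sat (T.filter fun l => l.1 ∈ Q) x) : T \ rs Q x = T.filter fun l => l.1 ∉ Q := by
  ext l
  rw [mem_sdiff, mem_filter, mem_rs]
  constructor
  · rintro ⟨h1, h2⟩
    refine ⟨h1, fun h3 => h2 ⟨h3, h l (mem_filter.2 ⟨h1, h3⟩)⟩⟩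
  · rintro ⟨h1, h2⟩
    exact ⟨h1, fun h3 => h2 h3.1⟩

open Classical in
lemma avg (hS : S_SAT) {T : Tm n} (hT : Con T) (Q : Finset (Fin n)) :
    ∑ x : Fin n → Bool, (if Con (T ∪ rs Q x) then (1 / 2 : ℝ) ^ (T \ rs Q x).card else 0) =
      2 ^ n * (1 / 2 : ℝ) ^ T.card := by
  have h1 : ∀ x : Fin n → Bool,
      (if Con (T ∪ rs Q x) then (1 / 2 : ℝ) ^ (T \ rs Q x).card else 0) =
      (if Sat (T.filter fun l => l.1 ∈ Q) x then 1 else 0) *
        (1 / 2 : ℝ) ^ (T.filter fun l => l.1 ∉ Q).card := by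
    intro x
    by_cases h : Con (T ∪ rs Q x)
    · have h2 := (con_union_rs hT Q x).1 h
      rw [if_pos h, if_pos h2, sdiff_rs h2, one_mul]
    · have h2 : ¬ Sat (T.filter fun l => l.1 ∈ Q) x := fun h' => h ((con_union_rs hT Q x).2 h')
      rw [if_neg h, if_neg h2, zero_mul]
  rw [sum_congr rfl fun x _ => h1 x, ← sum_mul, sum_boole]
  have h2 := hS n (T.filter fun l => l.1 ∈ Q) (fun l hl l' hl' h =>
    hT l (mem_filter.1 hl).1 l' (mem_filter.1 hl').1 h)
  unfold pr at h2
  rw [div_eq_iff (by positivity)] at h2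
  have h3 : T.card = (T.filter fun l => l.1 ∈ Q).card + (T.filter fun l => l.1 ∉ Q).card :=
    (card_filter_add_card_filter_not _).symm
  rw [h2, h3, pow_add]
  ring

theorem main (hS : S_SAT) : S_FIX := by
  classical
  intro k h M δ hδ hM
  obtain ⟨q, hq⟩ := exists_Q k h M hM
  obtain ⟨m, hm⟩ := exists_pow_lt_of_lt_one (show (0 : ℝ) < δ / (4 * (k * q + 1)) by positivity)
    (show (1 / 2 : ℝ) < 1 by norm_num)
  have hL : (k * q : ℝ) * (1 / 2) ^ (m + 1) ≤ δ / 4 := by
    have h1 : (1 / 2 : ℝ) ^ (m + 1) ≤ (1 / 2) ^ m :=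
      pow_le_pow_of_le_one (by norm_num) (by norm_num) (Nat.le_succ m)
    have h2 : (k * q : ℝ) * (1 / 2) ^ (m + 1) ≤ (k * q + 1) * (δ / (4 * (k * q + 1))) := by
      have h3 := h1.trans hm.le
      have h4 : (0 : ℝ) ≤ (k : ℝ) * q := by positivity
      have h5 : (0 : ℝ) ≤ (1 / 2 : ℝ) ^ (m + 1) := by positivity
      calc (k * q : ℝ) * (1 / 2) ^ (m + 1) ≤ (k * q + 1) * (1 / 2) ^ (m + 1) := by nlinarith
        _ ≤ _ := by gcongr
    refine h2.trans (le_of_eq ?_)
    have h6 : (0 : ℝ) < k * q + 1 := by positivity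
    field_simp
  refine ⟨m + 1, q, fun n ι s e R hes hC hR hw hδe hLb => ?_⟩
  obtain ⟨Q, hQc, hQv, hQ⟩ := hq n ι s R hC hR hw
  -- the two bad events
  obtain ⟨x, hxa, hxb⟩ : ∃ x : Fin n → Bool, (∀ b ∈ s, vr (R b) ⊆ Q → ¬ Sat (R b) x) ∧
      ∑ b ∈ s, (if Con (R b ∪ rs Q x) then (1 / 2 : ℝ) ^ (R b \ rs Q x).card else 0) ≤
        4 * M / δ := by
    by_contra hcon
    push Not at hcon
    set N : ℝ := 2 ^ n with hN
    have hN0 : 0 < N := by positivity
    set A : Finset (Fin n → Bool) := univ.filter fun x => ∃ b ∈ s, vr (R b) ⊆ Q ∧ Sat (R b) x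
      with hA
    set P' : Finset ι := (s.filter fun b => b ∉ e).filter fun b => vr (R b) ⊆ Q with hP'
    have hcA : (A.card : ℝ) ≤ N * (1 - 3 * δ / 4) := by
      have h1 : A ⊆ (univ.filter fun x => ¬ Avoid e R x) ∪
          P'.biUnion fun b => univ.filter (Sat (R b)) := by
        intro x hx
        rw [hA, mem_filter] at hx
        obtain ⟨_, b, hb, hbQ, hbx⟩ := hx
        rw [mem_union, mem_filter, mem_biUnion]
        by_cases hbe : b ∈ e
        · exact Or.inl ⟨mem_univ _, fun h' => h' b hbe hbx⟩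
        · exact Or.inr ⟨b, mem_filter.2 ⟨mem_filter.2 ⟨hb, hbe⟩, hbQ⟩,
            mem_filter.2 ⟨mem_univ _, hbx⟩⟩
      have h2 : ((univ.filter fun x : Fin n → Bool => ¬ Avoid e R x).card : ℝ) ≤ N * (1 - δ) := by
        have h3 : (univ.filter fun x : Fin n → Bool => Avoid e R x).card +
            (univ.filter fun x : Fin n → Bool => ¬ Avoid e R x).card = 2 ^ n := by
          rw [card_filter_add_card_filter_not]
          simp
        have h4 : ((univ.filter fun x : Fin n → Bool => Avoid e R x).card : ℝ) +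
            ((univ.filter fun x : Fin n → Bool => ¬ Avoid e R x).card : ℝ) = N := by
          rw [hN]
          exact_mod_cast h3
        have h5 : δ * N ≤ ((univ.filter fun x : Fin n → Bool => Avoid e R x).card : ℝ) := by
          unfold pr at hδe
          rw [le_div_iff₀ (by positivity)] at hδe
          convert hδe
        linarith
      have hPs : P' ⊆ s := (filter_subset _ _).trans (filter_subset _ _)
      have h3 : (P'.card : ℝ) ≤ k * q := by
        have h4 := dc hR hPs fun b hb => (mem_filter.1 hb).2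
        have h5 : P'.card * 1 ≤ ∑ b ∈ P', (vr (R b)).card := by
          rw [← smul_eq_mul, ← sum_const]
          refine sum_le_sum fun b hb => ?_
          rw [card_vr (hC b (hPs hb))]
          have h6 := hLb b (hPs hb) (mem_filter.1 (mem_filter.1 hb).1).2
          omega
        have h6 : P'.card ≤ k * q := by
          have := Nat.mul_le_mul_left k hQc
          omega
        exact_mod_cast h6
      have h4 : ((P'.biUnion fun b => univ.filter (Sat (R b))).card : ℝ) ≤ N * (δ / 4) := by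
        calc ((P'.biUnion fun b => univ.filter (Sat (R b))).card : ℝ)
            ≤ ∑ b ∈ P', ((univ.filter (Sat (R b))).card : ℝ) := by
              exact_mod_cast card_biUnion_le
          _ ≤ ∑ _b ∈ P', N * (1 / 2 : ℝ) ^ (m + 1) := by
              refine sum_le_sum fun b hb => ?_
              have h5 := hS n (R b) (hC b (hPs hb))
              unfold pr at h5
              rw [div_eq_iff (by positivity)] at h5
              have h6 := hLb b (hPs hb) (mem_filter.1 (mem_filter.1 hb).1).2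
              have h7 : (1 / 2 : ℝ) ^ (R b).card ≤ (1 / 2) ^ (m + 1) :=
                pow_le_pow_of_le_one (by norm_num) (by norm_num) h6
              calc ((univ.filter (Sat (R b))).card : ℝ) = (1 / 2 : ℝ) ^ (R b).card * 2 ^ n := by
                    rw [← h5]
                _ ≤ (1 / 2) ^ (m + 1) * 2 ^ n := by gcongr
                _ = N * (1 / 2 : ℝ) ^ (m + 1) := by rw [hN]; ring
          _ = P'.card * (N * (1 / 2 : ℝ) ^ (m + 1)) := by rw [sum_const, nsmul_eq_mul]
          _ ≤ (k * q) * (N * (1 / 2 : ℝ) ^ (m + 1)) := by gcongr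
          _ = N * ((k * q) * (1 / 2 : ℝ) ^ (m + 1)) := by ring
          _ ≤ _ := by gcongr
      have h5 : (A.card : ℝ) ≤ ((univ.filter fun x : Fin n → Bool => ¬ Avoid e R x).card : ℝ) +
          ((P'.biUnion fun b => univ.filter (Sat (R b))).card : ℝ) := by
        exact_mod_cast (card_le_card h1).trans (card_union_le _ _)
      have h6 : N * (1 - 3 * δ / 4) = N * (1 - δ) + N * (δ / 4) := by ring
      rw [h6]
      linarith
    -- total mass
    have htot : ∑ x : Fin n → Bool, ∑ b ∈ s,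
        (if Con (R b ∪ rs Q x) then (1 / 2 : ℝ) ^ (R b \ rs Q x).card else 0) ≤ N * M := by
      rw [sum_comm]
      calc ∑ b ∈ s, ∑ x : Fin n → Bool,
            (if Con (R b ∪ rs Q x) then (1 / 2 : ℝ) ^ (R b \ rs Q x).card else 0)
          = ∑ b ∈ s, N * (1 / 2 : ℝ) ^ (R b).card := sum_congr rfl fun b hb => avg hS (hC b hb) Q
        _ = N * wt s R := by rw [← mul_sum]; rfl
        _ ≤ N * M := by gcongr
    have hBc : ((univ \ A).card : ℝ) = N - A.card := by
      have h1 : (univ \ A).card + A.card = 2 ^ n := by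
        rw [card_sdiff_add_card_eq_card (subset_univ _)]
        simp
      have h2 : ((univ \ A).card : ℝ) + A.card = N := by
        rw [hN]
        exact_mod_cast h1
      linarith
    have hBpos : 0 < ((univ \ A).card : ℝ) := by
      rw [hBc]
      nlinarith
    have hBne : (univ \ A).Nonempty := by
      rw [← card_pos]
      exact_mod_cast hBpos
    have h7 : ((univ \ A).card : ℝ) * (4 * M / δ) < ∑ x ∈ univ \ A, ∑ b ∈ s,
        (if Con (R b ∪ rs Q x) then (1 / 2 : ℝ) ^ (R b \ rs Q x).card else 0) := by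
      rw [← nsmul_eq_mul, ← sum_const]
      refine sum_lt_sum_of_nonempty hBne fun x hx => ?_
      refine hcon x fun b hb hbQ hbx => ?_
      rw [mem_sdiff] at hx
      exact hx.2 (mem_filter.2 ⟨mem_univ _, b, hb, hbQ, hbx⟩)
    have h8 : ∑ x ∈ univ \ A, ∑ b ∈ s,
        (if Con (R b ∪ rs Q x) then (1 / 2 : ℝ) ^ (R b \ rs Q x).card else 0) ≤ N * M := by
      refine le_trans ?_ htot
      refine sum_le_sum_of_subset_of_nonneg (subset_univ _) fun x _ _ => ?_
      refine sum_nonneg fun b _ => ?_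
      split_ifs
      · positivity
      · exact le_rfl
    have h9 : N * (3 * δ / 4) ≤ ((univ \ A).card : ℝ) := by
      rw [hBc]
      linarith
    have h10 : N * (3 * δ / 4) * (4 * M / δ) ≤ ((univ \ A).card : ℝ) * (4 * M / δ) := by
      have : 0 ≤ 4 * M / δ := by positivity
      gcongr
    have h11 : N * (3 * δ / 4) * (4 * M / δ) = 3 * (N * M) := by
      field_simp
    have h12 : 0 ≤ N * M := by positivity
    linarith
  have hsat : ∀ b ∈ s, Con (R b ∪ rs Q x) → h ≤ (R b \ rs Q x).card := by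
    intro b hb hcb
    by_contra hlt
    push Not at hlt
    have h1 := (con_union_rs (hC b hb) Q x).1 hcb
    have h2 := sdiff_rs h1
    have h3 : (vr (R b) \ Q).card ≤ (R b \ rs Q x).card := by
      rw [h2]
      have h4 : vr (R b) \ Q ⊆ ((R b).filter fun l => l.1 ∉ Q).image Prod.fst := by
        intro i hi
        rw [mem_sdiff] at hi
        obtain ⟨hi, hiQ⟩ := hi
        unfold vr at hi
        rw [mem_image] at hi ⊢
        obtain ⟨l, hl, rfl⟩ := hi
        exact ⟨l, mem_filter.2 ⟨hl, hiQ⟩, rfl⟩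
      exact (card_le_card h4).trans card_image_le
    have h4 := hQ b hb (lt_of_le_of_lt h3 hlt)
    refine hxa b hb h4 fun l hl => h1 l (mem_filter.2 ⟨hl, h4 ?_⟩)
    unfold vr
    exact mem_image_of_mem _ hl
  refine ⟨rs Q x, con_rs Q x, card_image_le.trans hQc, ?_, hsat, ?_⟩
  · intro i hi
    unfold vr at hi
    rw [mem_image] at hi
    obtain ⟨l, hl, rfl⟩ := hi
    exact hQv _ (mem_rs.1 hl).1
  · rw [sum_filter]
    exact hxb

end Pool.Agent.Helper71.RK.FIX

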